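import Mathlib

namespace Pool.Agent.Results.MP_06877e_nt.Fails

open Finset Complex

/-- the product over the quadratic residues -/
noncomputable def S (p : ℕ) (x : ℂ) : ℂ :=
  ∏ k ∈ Icc 1 ((p - 1) / 2), (x - exp (2 * Real.pi * I * (k : ℂ) ^ 2 / p))

/-- rational lower bound for one factor -/
def L (k : ℕ) : ℚ :=
  2 * (314 / 100 * ((min ((3 * k ^ 2 + 107) % 321) (321 - (3 * k ^ 2 + 107) % 321) : ℕ) / 321 : ℚ) -
    (315 / 100) ^ 3 * ((min ((3 * k ^ 2 + 107) % 321) (321 - (3 * k ^ 2 + 107) % 321) : ℕ) / 321 : ℚ) ^ 3 / 6)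

lemma sin_low (m : ℕ) : (314 / 100 * ((m : ℝ) / 321) - (315 / 100) ^ 3 * ((m : ℝ) / 321) ^ 3 / 6)
    ≤ Real.sin (Real.pi * (m / 321)) := by
  have h1 := Real.pi_gt_d2
  have h2 := Real.pi_lt_d2
  have ht : (0 : ℝ) ≤ m / 321 := by positivity
  refine le_trans ?_ (Real.sin_ge_sub_cube (by positivity))
  have h3 : Real.pi ^ 3 ≤ (315 / 100) ^ 3 := pow_le_pow_left₀ Real.pi_pos.le (by linarith) 3
  have h4 := mul_le_mul_of_nonneg_right h3 (pow_nonneg ht 3)
  have h5 := mul_le_mul_of_nonneg_right h1.le ht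
  rw [mul_pow]
  linarith

lemma factor (k : ℕ) : (L k : ℝ) ≤
    ‖(exp (2 * Real.pi * I / 3))⁻¹ - exp (2 * Real.pi * I * (k : ℂ) ^ 2 / (107 : ℕ))‖ := by
  set N := 3 * k ^ 2 + 107 with hN
  have e1 : (exp (2 * Real.pi * I / 3))⁻¹ - exp (2 * Real.pi * I * (k : ℂ) ^ 2 / (107 : ℕ)) =
      -(exp (2 * Real.pi * I / 3))⁻¹ * (exp (I * ((2 * Real.pi * N / 321 : ℝ) : ℂ)) - 1) := by
    rw [← exp_neg, neg_mul, mul_sub, ← exp_add, mul_one, neg_sub]
    congr 2
    rw [hN]; push_cast; ring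
  have e2 : ‖exp (2 * Real.pi * I / 3)‖ = 1 := by
    rw [show 2 * Real.pi * I / 3 = ((2 * Real.pi / 3 : ℝ) : ℂ) * I by push_cast; ring,
      norm_exp_ofReal_mul_I]
  rw [e1, norm_mul, norm_neg, norm_inv, e2, inv_one, one_mul, norm_exp_I_mul_ofReal_sub_one,
    Real.norm_eq_abs, abs_mul, abs_two]
  have e3 : 2 * Real.pi * N / 321 / 2 = Real.pi * ((N % 321 : ℕ) / 321) + (N / 321 : ℕ) * Real.pi := by
    conv_lhs => rw [← Nat.mod_add_div N 321]
    push_cast; ring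
  rw [e3, Real.sin_add_nat_mul_pi, abs_mul, abs_pow, abs_neg, abs_one, one_pow, one_mul]
  simp only [L, ← hN]
  push_cast [-Nat.cast_min]
  refine mul_le_mul_of_nonneg_left (le_trans (sin_low _) (le_trans (le_of_eq ?_) (le_abs_self _)))
    (by norm_num)
  rcases min_choice (N % 321) (321 - N % 321) with h | h <;> rw [h]
  rw [Nat.cast_sub (Nat.mod_lt _ (by norm_num)).le, ← Real.sin_pi_sub]
  congr 1
  push_cast; ring

/-- The absolute value predicted by the second identity is wrong for some prime. -/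
theorem result : ¬ ∀ p : ℕ, p.Prime → 3 < p → p % 4 = 3 → ∀ x y : ℕ, 0 < x → 0 < y →
    3 * (x : ℤ) ^ 2 + 4 * jacobiSym p 3 = p * (y : ℤ) ^ 2 →
    (∀ u v : ℕ, 0 < u → 0 < v → 3 * (u : ℤ) ^ 2 + 4 * jacobiSym p 3 = p * (v : ℤ) ^ 2 →
      x ≤ u ∧ y ≤ v) →
    ‖S p (exp (2 * Real.pi * I / 3))⁻¹‖ = (x * √3 + y * √p) / 2 := by
  intro h
  have hj : jacobiSym ((107 : ℕ) : ℤ) 3 = -1 := by norm_num
  have h1 := h 107 (by norm_num) (by norm_num) (by norm_num) 12 2 (by norm_num) (by norm_num)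
    (by rw [hj]; norm_num) (by
      intro u v hu hv h2
      rw [hj] at h2
      have h3 : 2 ≤ v := by
        by_contra h4
        obtain rfl : v = 1 := by omega
        have h5 : u ≤ 6 := by
          by_contra h6
          have h7 : (7 : ℤ) ≤ u := by omega
          push_cast at h2
          nlinarith
        interval_cases u <;> simp at h2
      refine ⟨?_, h3⟩
      have : (2 : ℤ) ≤ v := by exact_mod_cast h3
      have h6 : (12 : ℤ) ≤ u := by push_cast at h2; nlinarith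
      exact_mod_cast h6)
  have h2 : ((∏ k ∈ Icc 1 53, L k : ℚ) : ℝ) ≤ ‖S 107 (exp (2 * Real.pi * I / 3))⁻¹‖ := by
    rw [S, norm_prod, Rat.cast_prod]
    refine prod_le_prod (fun k hk => ?_) (fun k _ => factor k)
    have : ∀ k ∈ Icc 1 53, 0 ≤ L k := by decide +kernel
    exact_mod_cast this k hk
  have h3 : (21 : ℚ) < ∏ k ∈ Icc 1 53, L k := by decide +kernel
  have h4 : (21 : ℝ) < ((∏ k ∈ Icc 1 53, L k : ℚ) : ℝ) := by exact_mod_cast h3
  have h5 : √3 < 7 / 4 := (Real.sqrt_lt' (by norm_num)).2 (by norm_num)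
  have h6 : √((107 : ℕ) : ℝ) < 21 / 2 := (Real.sqrt_lt' (by norm_num)).2 (by norm_num)
  push_cast at h1 h6
  linarith

end Pool.Agent.Results.MP_06877e_nt.Fails
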